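import Pool.Agent.H21.BT.Targets

/-!
Row OT3 of bt_modules (MP_c59857_nt, theorem (H)): the inner product of the dual function of one
level with a sum of exponentials on the windows of level 0.
-/

set_option autoImplicit false

namespace Pool.Agent.H49.BT

open Finset Pool.Agent.H6.N4D Pool.Agent.H21.BS Pool.Agent.H21.BT

/-- OT3 -/
theorem pf_OT3 (hLVT : T_LVT) (hOMF : T_OMF) (hOM3 : T_OM3) : T_OT3 := by
  intro W _
  obtain ⟨C, hC, h3⟩ := hOM3 W
  refine ⟨C, hC, ?_⟩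
  intro S A z R F hS hz hF i hi1 hiK
  obtain ⟨hlv, -, -⟩ := hLVT S W A hS
  obtain ⟨-, -, -, hcn, hL, -, -⟩ := hlv i hiK
  obtain ⟨hfc, -, hsum⟩ := hOMF S W A z hS hz
  have hcnt : 0 < S.cnt i := by
    rcases Nat.eq_zero_or_pos (S.cnt i) with h | h
    · rw [h, zero_mul] at hcn
      omega
    · exact h
  have hA : 1 ≤ A := (hS.ok i hi1 hiK 0 hcnt).A1
  have hk : (1 : ℝ) ≤ S.k := by exact_mod_cast hS.k1
  set E : ℝ := C * R * (S.s 0 : ℝ) ^ (-(1 / 5) : ℝ) with hE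
  have hE0 : 0 ≤ E := by
    rw [hE]
    have : (0 : ℝ) ≤ (S.s 0 : ℝ) ^ (-(1 / 5) : ℝ) := Real.rpow_nonneg (Nat.cast_nonneg _) _
    have hR : (0 : ℝ) ≤ R := Nat.cast_nonneg _
    exact mul_nonneg (mul_nonneg hC hR) this
  -- one frequency
  have hone : ∀ r ∈ range S.k, ‖av S.U S.L fun n => F n *
      starRingEnd ℂ ((S.fam fun _ => r).Om (S.fc A z fun _ => r) i n)‖ ≤ E := by
    intro r hr
    rw [mem_range] at hr
    exact h3 (S.fam fun _ => r) (S.fc A z fun _ => r) R F (hS.fm (fun _ => r) fun _ => hr)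
      (hfc (fun _ => r) fun _ => hr) hF i hi1 hiK
  have e1 : (av S.U S.L fun n => F n * starRingEnd ℂ (S.Om z i n)) =
      A * ∑ r ∈ range S.k, av S.U S.L fun n => F n *
        starRingEnd ℂ ((S.fam fun _ => r).Om (S.fc A z fun _ => r) i n) := by
    unfold av
    rw [← sum_div, sum_comm, ← mul_div_assoc, mul_sum]
    congr 1
    refine sum_congr rfl (fun x hx => ?_)
    rw [mem_range] at hx
    show F (S.U + x) * starRingEnd ℂ (S.Om z i (S.U + x)) =
      A * ∑ r ∈ range S.k, F (S.U + x) *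
        starRingEnd ℂ ((S.fam fun _ => r).Om (S.fc A z fun _ => r) i (S.U + x))
    rw [hsum i x hi1 hiK hx, map_mul, map_sum, Complex.conj_ofReal, ← mul_sum]
    ring
  rw [e1, norm_mul, Complex.norm_real, Real.norm_of_nonneg (by linarith)]
  have h1 : ‖∑ r ∈ range S.k, av S.U S.L fun n => F n *
      starRingEnd ℂ ((S.fam fun _ => r).Om (S.fc A z fun _ => r) i n)‖ ≤ S.k * E := by
    refine le_trans (norm_sum_le _ _) (le_trans (sum_le_sum hone) ?_)
    rw [sum_const, card_range, nsmul_eq_mul]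
  have h2 : (S.k : ℝ) ≤ (S.k : ℝ) ^ 4 := by
    calc (S.k : ℝ) = (S.k : ℝ) ^ 1 := (pow_one _).symm
      _ ≤ (S.k : ℝ) ^ 4 := pow_le_pow_right₀ hk (by norm_num)
  have h3' : A ≤ A ^ 2 := by nlinarith
  calc A * ‖∑ r ∈ range S.k, av S.U S.L fun n => F n *
      starRingEnd ℂ ((S.fam fun _ => r).Om (S.fc A z fun _ => r) i n)‖
      ≤ A * (S.k * E) := mul_le_mul_of_nonneg_left h1 (by linarith)
    _ = (S.k * A) * E := by ring
    _ ≤ ((S.k : ℝ) ^ 4 * A ^ 2) * E := by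
        refine mul_le_mul_of_nonneg_right ?_ hE0
        exact mul_le_mul h2 h3' (by linarith) (by positivity)
    _ = C * ((S.k : ℝ) ^ 4 * A ^ 2) * R * (S.s 0 : ℝ) ^ (-(1 / 5) : ℝ) := by
        rw [hE]
        ring

end Pool.Agent.H49.BT
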